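import Pool.Agent.H19.BFL.Stmts4

/-!
# Counts of the rows from entropies

Row CPS of the board kbfo (helper19): an entropy bound gives, on an event of relative probability
at least `1 / (1 + m (J + 2))`, a bound of the number of values; stability then gives the bound on
the event itself.
-/

set_option autoImplicit false

namespace Pool.Agent.H1.BFL

open Finset Real
open Pool.Agent.H49.Ent Pool.Agent.H32.Dense Pool.STK Pool.KS3 Pool.KA Pool.KSAT Pool.K2S Pool.PB
open Pool.BFL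

variable {Ω S T : Type} [Fintype Ω]

/-- The conditional surprise. -/
noncomputable def vv (p : Ω → ℝ) (X : Ω → S) (W : Ω → T) (ω : Ω) : ℝ :=
  Real.log (law p W (W ω)) - Real.log (law p (fun ω => (X ω, W ω)) (X ω, W ω))

theorem CH_eq_vv (p : Ω → ℝ) (X : Ω → S) (W : Ω → T) : CH p X W = ∑ ω, p ω * vv p X W ω := by
  unfold CH H vv
  rw [sub_neg_eq_add, ← Finset.sum_neg_distrib, ← Finset.sum_add_distrib]
  refine Finset.sum_congr rfl fun ω _ => ?_
  ring

theorem vv_nonneg {p : Ω → ℝ} (hp : ∀ ω, 0 ≤ p ω) (X : Ω → S) (W : Ω → T) {ω : Ω}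
    (hω : 0 < p ω) : 0 ≤ vv p X W ω := by
  unfold vv
  rw [sub_nonneg]
  refine Real.log_le_log (law_pos hp _ hω) ?_
  classical
  unfold law
  refine Finset.sum_le_sum fun ω' _ => ?_
  by_cases h : (X ω', W ω') = (X ω, W ω)
  · rw [if_pos h, if_pos (Prod.ext_iff.1 h).2]
  · rw [if_neg h]
    split_ifs
    · exact hp ω'
    · exact le_rfl

/-- The values of small surprise are few. -/
theorem count_le {p : Ω → ℝ} (hp : ∀ ω, 0 ≤ p ω) (X : Ω → S) (W : Ω → T) (θ : ℝ) (w : T)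
    (hw : 0 < law p W w) (F : Set S)
    (hF : ∀ x ∈ F, ∃ ω, 0 < p ω ∧ W ω = w ∧ X ω = x ∧ vv p X W ω ≤ θ) :
    (Set.ncard F : ℝ) ≤ Real.exp θ := by
  classical
  have hfin : F.Finite := by
    refine Set.Finite.subset (Set.finite_range X) ?_
    intro x hx
    obtain ⟨ω, _, _, h, _⟩ := hF x hx
    exact ⟨ω, h⟩
  rw [Set.ncard_eq_toFinset_card F hfin]
  set G := hfin.toFinset with hG
  have h1 : ∀ x ∈ G, Real.exp (-θ) * law p W w ≤ law p (fun ω => (X ω, W ω)) (x, w) := by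
    intro x hx
    obtain ⟨ω, h0, hW, hX, hv⟩ := hF x ((Set.Finite.mem_toFinset hfin).1 hx)
    have l1 : 0 < law p (fun ω => (X ω, W ω)) (x, w) := by
      rw [← hX, ← hW]
      exact law_pos hp (fun ω => (X ω, W ω)) h0
    unfold vv at hv
    rw [hW, hX] at hv
    have h2 : -θ + Real.log (law p W w) ≤ Real.log (law p (fun ω => (X ω, W ω)) (x, w)) := by
      linarith
    have h3 := Real.exp_le_exp.2 h2
    rwa [Real.exp_add, Real.exp_log hw, Real.exp_log l1] at h3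
  have h2 : ∑ x ∈ G, law p (fun ω => (X ω, W ω)) (x, w) ≤ law p W w := by
    unfold law
    rw [Finset.sum_comm]
    refine Finset.sum_le_sum fun ω _ => ?_
    by_cases h : W ω = w
    · rw [if_pos h]
      by_cases hx : X ω ∈ G
      · rw [Finset.sum_eq_single (X ω)]
        · split_ifs
          · exact le_rfl
          · exact hp ω
        · intro b _ hb
          rw [if_neg]
          intro h'
          exact hb (Prod.ext_iff.1 h').1.symm
        · intro h'
          exact absurd hx h'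
      · rw [Finset.sum_eq_zero]
        · exact hp ω
        · intro b hb
          rw [if_neg]
          intro h'
          exact hx (by rw [show X ω = b from (Prod.ext_iff.1 h').1]; exact hb)
    · rw [if_neg h, Finset.sum_eq_zero]
      intro b _
      rw [if_neg]
      intro h'
      exact h (Prod.ext_iff.1 h').2
  have h3 := Finset.card_nsmul_le_sum G _ _ h1
  rw [nsmul_eq_mul] at h3
  have h4 : (G.card : ℝ) * (Real.exp (-θ) * law p W w) ≤ 1 * law p W w := by linarith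
  rw [← mul_assoc] at h4
  have h5 := le_of_mul_le_mul_right h4 hw
  rw [Real.exp_neg, mul_inv_le_iff₀ (Real.exp_pos _), one_mul] at h5
  exact h5

open Classical in
/-- Markov: the surprise is at most `θ + 1` with probability at least `1 / (N + 1)`. -/
theorem markov {p : Ω → ℝ} (hp : IsLaw p) (X : Ω → S) (W : Ω → T) (θ N : ℝ) (hN : 0 ≤ N)
    (h : CH p X W ≤ θ) (h' : CH p X W ≤ N) :
    1 / (N + 1) ≤ ∑ ω, if 0 < p ω ∧ vv p X W ω ≤ θ + 1 then p ω else 0 := by
  have h0 : 0 ≤ CH p X W := CH_nonneg hp.nonneg X W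
  have hθ : 0 < θ + 1 := by linarith
  have h1 : (θ + 1) * (1 - ∑ ω, if 0 < p ω ∧ vv p X W ω ≤ θ + 1 then p ω else 0) ≤ CH p X W := by
    have e1 : (1 : ℝ) - ∑ ω, (if 0 < p ω ∧ vv p X W ω ≤ θ + 1 then p ω else 0) =
        ∑ ω, (p ω - if 0 < p ω ∧ vv p X W ω ≤ θ + 1 then p ω else 0) := by
      rw [Finset.sum_sub_distrib, hp.sum_one]
    rw [CH_eq_vv, e1, Finset.mul_sum]
    refine Finset.sum_le_sum fun ω _ => ?_
    rcases (hp.nonneg ω).eq_or_lt with h2 | h2
    · rw [← h2]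
      simp
    · by_cases h3 : vv p X W ω ≤ θ + 1
      · rw [if_pos ⟨h2, h3⟩, sub_self, mul_zero]
        exact mul_nonneg h2.le (vv_nonneg hp.nonneg X W h2)
      · rw [if_neg (fun h4 => h3 h4.2), sub_zero, mul_comm]
        push Not at h3
        exact mul_le_mul_of_nonneg_left h3.le h2.le
  set s := ∑ ω, if 0 < p ω ∧ vv p X W ω ≤ θ + 1 then p ω else 0 with hs
  rw [div_le_iff₀ (by linarith)]
  by_cases hc : θ ≤ N
  · have h2 : (θ + 1) * (1 - s) ≤ θ := by linarith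
    have h3 : 1 ≤ (θ + 1) * s := by nlinarith
    have s0 : 0 ≤ s := by
      by_contra hn
      push Not at hn
      nlinarith
    nlinarith
  · push Not at hc
    have h2 : (θ + 1) * (1 - s) ≤ N := by linarith
    have h3 : 1 - s ≤ N / (N + 1) := by
      have h4 : 1 - s ≤ N / (θ + 1) := by
        rw [le_div_iff₀ hθ]
        linarith
      refine h4.trans ?_
      exact div_le_div_of_nonneg_left hN (by linarith) (by linarith)
    rw [le_div_iff₀ (by linarith)] at h3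
    nlinarith

/-- The entropy of the rows is at most `m (J + 3)`. -/
theorem CH_rows {m J : ℕ} (F : Fam m J) {q : F.Ω → ℝ} (hq : IsLaw q) (P₁ P₂ : ℕ) (h12 : P₁ ≤ P₂)
    (h2 : P₂ ≤ J) : CH q (F.X P₂) (fun ω => (F.X P₁ ω, F.W ω)) ≤ m * (J + 3) := by
  have h := CH_le_vec hq.nonneg hq.sum_one (F.X P₂) (fun ω => (F.X P₁ ω, F.W ω))
    (fun _ => (2 : ℝ) ^ P₂ + 1) ?_
  · rw [Ex_const hq.sum_one] at h
    refine h.trans (mul_le_mul_of_nonneg_left ?_ (Nat.cast_nonneg m))
    have h1 : Real.log (2 * (2 ^ P₂ + 1) + 1) ≤ Real.log (2 ^ (P₂ + 3)) := by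
      refine Real.log_le_log (by positivity) ?_
      have : (1 : ℝ) ≤ 2 ^ P₂ := one_le_pow₀ (by norm_num)
      rw [pow_add]
      linarith
    refine h1.trans ?_
    rw [Real.log_pow]
    have h3 : Real.log 2 ≤ 1 := by
      have := Real.log_two_lt_d9
      linarith
    have h4 : (P₂ : ℝ) ≤ J := by exact_mod_cast h2
    push_cast
    have h5 : (0 : ℝ) ≤ P₂ := Nat.cast_nonneg _
    nlinarith
  · intro ω ω' _ _ hW k
    have hX : F.X P₁ ω k = F.X P₁ ω' k := congrFun (Prod.ext_iff.1 hW).1 k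
    obtain ⟨b, rfl⟩ := Nat.exists_eq_add_of_le h12
    have e : ∀ ω, F.X P₁ ω k = ⌊(2 : ℝ) ^ P₁ * F.x ω k⌋ := fun _ => rfl
    have e' : ∀ ω, F.X (P₁ + b) ω k = ⌊(2 : ℝ) ^ (P₁ + b) * F.x ω k⌋ := fun _ => rfl
    rw [e, e] at hX
    rw [e', e']
    have a1 := Int.floor_le ((2 : ℝ) ^ P₁ * F.x ω k)
    have a2 := Int.lt_floor_add_one ((2 : ℝ) ^ P₁ * F.x ω k)
    have a3 := Int.floor_le ((2 : ℝ) ^ P₁ * F.x ω' k)
    have a4 := Int.lt_floor_add_one ((2 : ℝ) ^ P₁ * F.x ω' k)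
    rw [hX] at a1 a2
    have b1 := Int.floor_le ((2 : ℝ) ^ (P₁ + b) * F.x ω k)
    have b2 := Int.lt_floor_add_one ((2 : ℝ) ^ (P₁ + b) * F.x ω k)
    have b3 := Int.floor_le ((2 : ℝ) ^ (P₁ + b) * F.x ω' k)
    have b4 := Int.lt_floor_add_one ((2 : ℝ) ^ (P₁ + b) * F.x ω' k)
    have hb : (0 : ℝ) < 2 ^ b := by positivity
    have c1 : |(2 : ℝ) ^ (P₁ + b) * F.x ω k - (2 : ℝ) ^ (P₁ + b) * F.x ω' k| ≤ 2 ^ b := by
      have c2 : (2 : ℝ) ^ (P₁ + b) * F.x ω k - (2 : ℝ) ^ (P₁ + b) * F.x ω' k =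
          2 ^ b * ((2 : ℝ) ^ P₁ * F.x ω k - (2 : ℝ) ^ P₁ * F.x ω' k) := by
        rw [pow_add]
        ring
      rw [c2, abs_mul, abs_of_pos hb]
      have c3 : |(2 : ℝ) ^ P₁ * F.x ω k - (2 : ℝ) ^ P₁ * F.x ω' k| ≤ 1 := by
        rw [abs_le]
        constructor <;> linarith
      calc (2 : ℝ) ^ b * |(2 : ℝ) ^ P₁ * F.x ω k - (2 : ℝ) ^ P₁ * F.x ω' k| ≤ 2 ^ b * 1 :=
            mul_le_mul_of_nonneg_left c3 hb.le
        _ = 2 ^ b := mul_one _
    have c4 : (2 : ℝ) ^ b ≤ 2 ^ (P₁ + b) :=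
      pow_le_pow_right₀ (by norm_num) (Nat.le_add_left b P₁)
    rw [abs_le] at c1 ⊢
    push_cast
    constructor <;> linarith

open Classical in
/-- **CPS.** -/
theorem cps_thm : CPSStmt := by
  intro m κ ε hκ hε
  -- the constants
  have hlim : ∃ J₀ : ℕ, ∀ J : ℕ, J₀ ≤ J → (m : ℝ) * (J + 3) + 1 ≤ Real.exp (κ * J) ∧
      1 ≤ ε * J := by
    have h1 : Filter.Tendsto (fun J : ℕ => Real.exp (κ * J) / ((κ * J) ^ 2)) Filter.atTop
        Filter.atTop := by
      have h2 := (Real.tendsto_exp_div_pow_atTop 2).comp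
        (Filter.Tendsto.const_mul_atTop hκ tendsto_natCast_atTop_atTop)
      exact h2
    obtain ⟨J₁, hJ₁⟩ := Filter.eventually_atTop.1 (h1.eventually_ge_atTop 1)
    obtain ⟨J₂, hJ₂⟩ := exists_nat_ge ((4 * m + 1) / κ ^ 2)
    obtain ⟨J₃, hJ₃⟩ := exists_nat_ge (1 / ε)
    refine ⟨max (max J₁ J₂) (max J₃ 1), fun J hJ => ?_⟩
    have g1 : J₁ ≤ J := le_trans (le_trans (le_max_left _ _) (le_max_left _ _)) hJ
    have g2 : J₂ ≤ J := le_trans (le_trans (le_max_right _ _) (le_max_left _ _)) hJ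
    have g3 : J₃ ≤ J := le_trans (le_trans (le_max_left _ _) (le_max_right _ _)) hJ
    have g4 : 1 ≤ J := le_trans (le_trans (le_max_right _ _) (le_max_right _ _)) hJ
    have g4' : (1 : ℝ) ≤ J := by exact_mod_cast g4
    have g2' : (J₂ : ℝ) ≤ J := by exact_mod_cast g2
    have g3' : (J₃ : ℝ) ≤ J := by exact_mod_cast g3
    constructor
    · have k1 := hJ₁ J g1
      rw [le_div_iff₀ (by positivity), one_mul] at k1
      refine le_trans ?_ k1
      have k2 : (4 * m + 1) ≤ κ ^ 2 * (J : ℝ) := by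
        have := hJ₂.trans g2'
        rw [div_le_iff₀ (by positivity)] at this
        linarith
      have k3 : (4 * m + 1) * (J : ℝ) ≤ κ ^ 2 * J * J := mul_le_mul_of_nonneg_right k2 (by linarith)
      have m0 : (0 : ℝ) ≤ m := Nat.cast_nonneg m
      have k4 : (m : ℝ) * (J + 3) + 1 ≤ (4 * m + 1) * (J : ℝ) := by nlinarith
      calc (m : ℝ) * (J + 3) + 1 ≤ (4 * m + 1) * (J : ℝ) := k4
        _ ≤ κ ^ 2 * J * J := k3
        _ = (κ * J) ^ 2 := by ring
    · have k1 := hJ₃.trans g3'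
      rw [div_le_iff₀ hε] at k1
      linarith
  obtain ⟨J₀, hJ₀⟩ := hlim
  refine ⟨J₀, fun J hJ F A P₁ P₂ θ h12 h2 hA hθ hS => ?_⟩
  obtain ⟨k1, k2⟩ := hJ₀ J hJ
  rcases hS with hS | hS
  · exact hS
  exfalso
  set q := Pool.Agent.H49.Ent.cond F.p A True with hq
  have hql : IsLaw q := isLaw_cond F.isLaw hA
  set X := F.X P₂ with hX
  set W := fun ω => (F.X P₁ ω, F.W ω) with hW
  set B : F.Ω → Prop := fun ω => A ω ∧ 0 < q ω ∧ vv q X W ω ≤ θ + 1 with hB
  have hBA : Sub B A := fun ω h => h.1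
  refine hS B hBA ?_ ?_
  · have hm := markov hql X W θ (m * (J + 3)) (by positivity) hθ (CH_rows F hql P₁ P₂ h12 h2)
    have e : Pe F.p B = Pe F.p A * ∑ ω, if 0 < q ω ∧ vv q X W ω ≤ θ + 1 then q ω else 0 := by
      rw [Pe_eq, Finset.mul_sum]
      refine Finset.sum_congr rfl fun ω _ => ?_
      by_cases hAω : A ω
      · have e2 : q ω = F.p ω / Pe F.p A := by
          simp only [hq, Pool.Agent.H49.Ent.cond]
          rw [if_pos (eq_true hAω)]
        by_cases h3 : 0 < q ω ∧ vv q X W ω ≤ θ + 1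
        · rw [if_pos ⟨hAω, h3.1, h3.2⟩, if_pos h3, e2, mul_div_cancel₀ _ hA.ne']
        · rw [if_neg (fun h4 => h3 ⟨h4.2.1, h4.2.2⟩), if_neg h3, mul_zero]
      · have e2 : q ω = 0 := by
          simp only [hq, Pool.Agent.H49.Ent.cond]
          rw [if_neg]
          intro h3
          exact hAω (of_eq_true h3)
        rw [if_neg (fun h4 => hAω h4.1), e2]
        simp
    rw [e, mul_comm]
    refine mul_le_mul_of_nonneg_left (le_trans ?_ hm) hA.le
    rw [Real.exp_neg, ← one_div]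
    refine one_div_le_one_div_of_le (by positivity) ?_
    linarith
  · intro ω hω
    refine le_trans (count_le hql.nonneg X W (θ + 1) (W ω) (law_pos hql.nonneg W hω.2.1) _ ?_)
      (Real.exp_le_exp.2 (by linarith))
    rintro x ⟨ω', h3, h4, rfl⟩
    exact ⟨ω', h3.2.1, h4, rfl, h3.2.2⟩

end Pool.Agent.H1.BFL
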