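import Pool.Agent.H19.BFL.Stmts2
import Pool.Agent.H36.KBX.TRM

/-!
# Row JTB of the board kbfo: bounds for the jets
-/

set_option autoImplicit false

namespace Pool.Agent.H1.BFL

open Finset MvPolynomial

/-- The polynomial `P (r x)`. -/
noncomputable def scl {n : ℕ} (r : ℝ) (P : MvPolynomial (Fin n) ℝ) : MvPolynomial (Fin n) ℝ :=
  ∑ k ∈ P.support, monomial k (r ^ k.degree * coeff k P)

theorem coeff_scl {n : ℕ} (r : ℝ) (P : MvPolynomial (Fin n) ℝ) (k : Fin n →₀ ℕ) :
    coeff k (scl r P) = r ^ k.degree * coeff k P := by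
  classical
  rw [scl, coeff_sum]
  simp only [coeff_monomial]
  rw [Finset.sum_ite_eq' P.support k]
  split_ifs with h
  · rfl
  · rw [notMem_support_iff.1 h, mul_zero]

theorem totalDegree_scl {n : ℕ} (r : ℝ) (P : MvPolynomial (Fin n) ℝ) :
    (scl r P).totalDegree ≤ P.totalDegree := by
  rw [scl]
  refine totalDegree_finsetSum_le fun k hk => ?_
  exact (totalDegree_monomial_le _ _).trans (le_totalDegree hk)

theorem eval_scl {n : ℕ} (r : ℝ) (P : MvPolynomial (Fin n) ℝ) (z : Fin n → ℝ) :
    eval z (scl r P) = eval (fun i => r * z i) P := by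
  rw [scl, map_sum, eval_eq']
  refine Finset.sum_congr rfl fun k _ => ?_
  rw [eval_monomial, Finsupp.prod_fintype _ _ (fun i => pow_zero _)]
  simp only [mul_pow]
  rw [Finset.prod_mul_distrib, Finset.prod_pow_eq_pow_sum]
  have e : k.degree = ∑ i, k i := by
    rw [Finsupp.degree_eq_sum]
  rw [e]; ring

theorem jtb_thm : Pool.BFL.JTBStmt := by
  intro n K
  obtain ⟨C, hC0, hC⟩ := Pool.Agent.H36.KBX.coef_bound n K
  refine ⟨max C 1, le_max_right _ _, ?_⟩
  intro F y r S hdeg hr hS i k
  have hS0 : 0 ≤ S := (abs_nonneg _).trans (hS y (fun i => by simpa using hr.le))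
  have hri : 0 < r ^ i := pow_pos hr i
  rw [Pool.BFL.jt, coeff_homogeneousComponent]
  split_ifs with h
  · have h1 : Pool.BFL.sh y F = Pool.Agent.H36.KBX.shift y F := rfl
    have h2 := hC (scl r (Pool.Agent.H36.KBX.shift y F)) S
      ((totalDegree_scl _ _).trans ((Pool.Agent.H36.KBX.totalDegree_shift y F).trans hdeg)) (by
        intro z hz
        rw [eval_scl, Pool.Agent.H36.KBX.eval_shift]
        apply hS
        intro l
        have e : r * z l + y l - y l = r * z l := by ring
        rw [e, abs_mul, abs_of_pos hr]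
        calc r * |z l| ≤ r * 1 := mul_le_mul_of_nonneg_left (hz l) hr.le
          _ = r := mul_one r) k
    rw [coeff_scl, h, abs_mul, abs_of_pos hri] at h2
    rw [h1, le_div_iff₀ hri, mul_comm]
    exact h2.trans (mul_le_mul_of_nonneg_right (le_max_left _ _) hS0)
  · rw [abs_zero]
    have : 0 ≤ max C 1 := le_trans zero_le_one (le_max_right _ _)
    positivity

end Pool.Agent.H1.BFL
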