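import Pool.Agent.H19.BFL.Stmts

/-!
# Row TRN of the board kbfl: transport of the jets along a walk
-/

set_option autoImplicit false

namespace Pool.Agent.H1.BFL

open Finset MvPolynomial

/-- Lipschitz bound for powers. -/
theorem lip_pow (M δ : ℝ) (hM : 1 ≤ M) (x x' : ℝ) (hx : |x| ≤ M)
    (hx' : |x'| ≤ M) (h : |x - x'| ≤ δ) (k : ℕ) :
    |x ^ k - x' ^ k| ≤ k * M ^ k * δ := by
  have hM0 : 0 ≤ M := by linarith
  have hδ : 0 ≤ δ := (abs_nonneg _).trans h
  induction k with
  | zero => simp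
  | succ k ih =>
    have e : x ^ (k + 1) - x' ^ (k + 1) = x ^ k * (x - x') + (x ^ k - x' ^ k) * x' := by ring
    rw [e]
    refine (abs_add_le _ _).trans ?_
    rw [abs_mul, abs_mul, abs_pow]
    have h1 : |x| ^ k * |x - x'| ≤ M ^ k * δ :=
      mul_le_mul (pow_le_pow_left₀ (abs_nonneg _) hx k) h (abs_nonneg _) (by positivity)
    have h2 : |x ^ k - x' ^ k| * |x'| ≤ (k * M ^ k * δ) * M :=
      mul_le_mul ih hx' (abs_nonneg _) (by positivity)
    have h3 : M ^ k * δ ≤ M ^ (k + 1) * δ :=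
      mul_le_mul_of_nonneg_right (pow_le_pow_right₀ hM (Nat.le_succ k)) hδ
    push_cast
    calc |x| ^ k * |x - x'| + |x ^ k - x' ^ k| * |x'|
        ≤ M ^ (k + 1) * δ + (k * M ^ k * δ) * M := by linarith
      _ = (k + 1) * M ^ (k + 1) * δ := by ring

/-- Lipschitz bound for products. -/
theorem lip_prod {ι : Type*} [DecidableEq ι] (s : Finset ι) (B ε : ℝ) (hB : 1 ≤ B) (hε : 0 ≤ ε)
    (f g : ι → ℝ)
    (hf : ∀ i, |f i| ≤ B) (hg : ∀ i, |g i| ≤ B) (h : ∀ i, |f i - g i| ≤ ε) :
    |∏ i ∈ s, f i - ∏ i ∈ s, g i| ≤ s.card * B ^ s.card * ε := by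
  have hB0 : 0 ≤ B := by linarith
  induction s using Finset.induction_on with
  | empty => simp
  | insert a s ha ih =>
    rw [Finset.prod_insert ha, Finset.prod_insert ha, Finset.card_insert_of_notMem ha]
    have e : f a * ∏ i ∈ s, f i - g a * ∏ i ∈ s, g i =
        (f a - g a) * ∏ i ∈ s, f i + g a * (∏ i ∈ s, f i - ∏ i ∈ s, g i) := by ring
    rw [e]
    refine (abs_add_le _ _).trans ?_
    rw [abs_mul, abs_mul]
    have h0 : |∏ i ∈ s, f i| ≤ B ^ s.card := by
      rw [Finset.abs_prod]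
      calc ∏ i ∈ s, |f i| ≤ ∏ _i ∈ s, B := Finset.prod_le_prod (fun i _ => abs_nonneg _)
            (fun i _ => hf i)
        _ = B ^ s.card := by rw [Finset.prod_const]
    have h1 : |f a - g a| * |∏ i ∈ s, f i| ≤ ε * B ^ s.card :=
      mul_le_mul (h a) h0 (abs_nonneg _) hε
    have h2 : |g a| * |∏ i ∈ s, f i - ∏ i ∈ s, g i| ≤ B * (s.card * B ^ s.card * ε) :=
      mul_le_mul (hg a) ih (abs_nonneg _) hB0
    have h3 : ε * B ^ s.card ≤ ε * B ^ (s.card + 1) :=
      mul_le_mul_of_nonneg_left (pow_le_pow_right₀ hB (Nat.le_succ _)) hε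
    push_cast
    calc |f a - g a| * |∏ i ∈ s, f i| + |g a| * |∏ i ∈ s, f i - ∏ i ∈ s, g i|
        ≤ ε * B ^ (s.card + 1) + B * (s.card * B ^ s.card * ε) := by linarith
      _ = (s.card + 1) * B ^ (s.card + 1) * ε := by ring

/-- Lipschitz bound for polynomials with bounded coefficients. -/
theorem lip_eval (n j : ℕ) (M : ℝ) (hM : 1 ≤ M) : ∃ L : ℝ, 0 ≤ L ∧
    ∀ (P : MvPolynomial (Fin n) ℝ) (r δ : ℝ), P.totalDegree ≤ j → (∀ k, |P.coeff k| ≤ r) →
      0 ≤ δ → ∀ x x' : Fin n → ℝ, (∀ i, |x i| ≤ M) → (∀ i, |x' i| ≤ M) →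
      (∀ i, |x i - x' i| ≤ δ) → |eval x P - eval x' P| ≤ L * r * δ := by
  classical
  have hM0 : 0 ≤ M := by linarith
  refine ⟨((Finset.Iic (Finsupp.equivFunOnFinite.symm fun _ : Fin n => j)).card : ℝ) *
    (n * (M ^ j) ^ n * (j * M ^ j)), by positivity, ?_⟩
  intro P r δ hdeg hr hδ x x' hx hx' h
  have hr0 : 0 ≤ r := (abs_nonneg _).trans (hr 0)
  rw [eval_eq', eval_eq', ← Finset.sum_sub_distrib]
  have hsupp : P.support ⊆ Finset.Iic (Finsupp.equivFunOnFinite.symm fun _ : Fin n => j) := by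
    intro α hα
    rw [Finset.mem_Iic]
    intro i
    exact (monomial_le_degreeOf i hα).trans ((degreeOf_le_totalDegree P i).trans hdeg)
  have key : ∀ d ∈ P.support, |coeff d P * ∏ i, x i ^ d i - coeff d P * ∏ i, x' i ^ d i| ≤
      r * ((n * (M ^ j) ^ n * (j * M ^ j)) * δ) := by
    intro d hd
    have hdj : ∀ i, d i ≤ j := by
      intro i
      exact (monomial_le_degreeOf i hd).trans ((degreeOf_le_totalDegree P i).trans hdeg)
    rw [← mul_sub, abs_mul]
    refine mul_le_mul (hr d) ?_ (abs_nonneg _) hr0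
    have hb : ∀ z : Fin n → ℝ, (∀ i, |z i| ≤ M) → ∀ i, |z i ^ d i| ≤ M ^ j := by
      intro z hz i
      rw [abs_pow]
      exact (pow_le_pow_left₀ (abs_nonneg _) (hz i) _).trans (pow_le_pow_right₀ hM (hdj i))
    have := lip_prod (Finset.univ : Finset (Fin n)) (M ^ j) (j * M ^ j * δ)
      (one_le_pow₀ hM) (by positivity) (fun i => x i ^ d i) (fun i => x' i ^ d i)
      (hb x hx) (hb x' hx') (by
        intro i
        refine (lip_pow M δ hM (x i) (x' i) (hx i) (hx' i) (h i) (d i)).trans ?_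
        refine mul_le_mul_of_nonneg_right ?_ hδ
        exact mul_le_mul (by exact_mod_cast hdj i) (pow_le_pow_right₀ hM (hdj i))
          (by positivity) (by positivity))
    rw [Finset.card_univ, Fintype.card_fin] at this
    refine this.trans (le_of_eq ?_)
    ring
  calc |∑ d ∈ P.support, (coeff d P * ∏ i, x i ^ d i - coeff d P * ∏ i, x' i ^ d i)|
      ≤ ∑ d ∈ P.support, |coeff d P * ∏ i, x i ^ d i - coeff d P * ∏ i, x' i ^ d i| :=
        Finset.abs_sum_le_sum_abs _ _
    _ ≤ ∑ _d ∈ P.support, r * ((n * (M ^ j) ^ n * (j * M ^ j)) * δ) := Finset.sum_le_sum key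
    _ = P.support.card * (r * ((n * (M ^ j) ^ n * (j * M ^ j)) * δ)) := by
        rw [Finset.sum_const, nsmul_eq_mul]
    _ ≤ ((Finset.Iic (Finsupp.equivFunOnFinite.symm fun _ : Fin n => j)).card : ℝ) *
        (r * ((n * (M ^ j) ^ n * (j * M ^ j)) * δ)) := by
        refine mul_le_mul_of_nonneg_right ?_ (by positivity)
        exact_mod_cast Finset.card_le_card hsupp
    _ = _ := by ring

/-- The rest vectors of the walk. -/
theorem rest_bound {n N : ℕ} (hN : 0 < N) (x y E : Fin N → Fin n → ℝ) (s : Fin N → ℝ) (δ₂ : ℝ)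
    (h1 : ∀ a i, |y a i - x a i - s a * E a i| ≤ δ₂)
    (h2 : ∀ a a' : Fin N, a'.val = a.val + 1 → ∀ i, |x a' i - y a i| ≤ δ₂) (d : ℕ) :
    ∀ a : Fin N, a.val + d = N - 1 → ∀ i,
      |y ⟨N - 1, by omega⟩ i - x a i - (s a * E a i +
        ∑ c ∈ univ.filter (a < ·), s c * E c i)| ≤ (2 * d + 1) * δ₂ := by
  induction d with
  | zero =>
    intro a ha i
    have e : a = ⟨N - 1, by omega⟩ := by ext; simpa using ha
    have e2 : (univ.filter (a < ·) : Finset (Fin N)) = ∅ := by
      ext c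
      simp only [Finset.mem_filter, Finset.mem_univ, true_and, Finset.notMem_empty, iff_false,
        not_lt]
      rw [Fin.le_def]
      have := c.isLt
      omega
    rw [e2, Finset.sum_empty, add_zero, ← e]
    simpa using h1 a i
  | succ d ih =>
    intro a ha i
    have hlt : a.val + 1 < N := by omega
    set a' : Fin N := ⟨a.val + 1, hlt⟩ with ha'
    have h3 := ih a' (by rw [ha']; simp only; omega) i
    have e2 : (univ.filter (a < ·) : Finset (Fin N)) = insert a' (univ.filter (a' < ·)) := by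
      ext c
      simp only [Finset.mem_filter, Finset.mem_univ, true_and, Finset.mem_insert, Fin.lt_def,
        Fin.ext_iff, ha']
      omega
    have hn : a' ∉ (univ.filter (a' < ·) : Finset (Fin N)) := by simp
    rw [e2, Finset.sum_insert hn]
    have h4 := h1 a i
    have h5 := h2 a a' rfl i
    have e3 : y ⟨N - 1, by omega⟩ i - x a i - (s a * E a i + (s a' * E a' i +
        ∑ c ∈ univ.filter (a' < ·), s c * E c i)) =
        (y ⟨N - 1, by omega⟩ i - x a' i - (s a' * E a' i +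
          ∑ c ∈ univ.filter (a' < ·), s c * E c i)) +
        ((x a' i - y a i) + (y a i - x a i - s a * E a i)) := by ring
    rw [e3]
    refine (abs_add_le _ _).trans ?_
    have h6 := abs_add_le (x a' i - y a i) (y a i - x a i - s a * E a i)
    push_cast
    linarith

theorem trn_thm : Pool.BFL.TRNStmt := by
  intro n N j C₀ hC₀
  have hM : (1 : ℝ) ≤ 3 * C₀ + 2 * N := by
    have : (0 : ℝ) ≤ N := Nat.cast_nonneg N
    linarith
  obtain ⟨L, hL0, hL⟩ := lip_eval n j (3 * C₀ + 2 * N) hM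
  refine ⟨1 + N * (1 + L * (2 * N)), ?_, ?_⟩
  · have : (0 : ℝ) ≤ N * (1 + L * (2 * N)) := by positivity
    linarith
  intro x y E s T b δ₁ δ₂ r hN hδ₁ hδ₂ hδ₂' hr hx hy hE hs hdeg hCB h1 h2 hT
  have hN1 : (0 : ℝ) ≤ N := Nat.cast_nonneg N
  have hr0 : 0 ≤ r := by linarith
  set Y : Fin n → ℝ := y ⟨N - 1, by omega⟩ with hY
  -- one leg
  have leg : ∀ a : Fin N, |Pool.BFL.lg (b a) (x a) (E a) (s a) Y -
      ∫ τ in (0 : ℝ)..(s a),
        eval (fun i => τ * E a i + ∑ c ∈ univ.filter (a < ·), s c * E c i) (b a)| ≤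
      L * r * (2 * N * δ₂) := by
    intro a
    set Sg : Fin n → ℝ := fun i => ∑ c ∈ univ.filter (a < ·), s c * E c i with hSg
    have hsub : ∫ τ in (0 : ℝ)..(s a), eval (fun i => τ * E a i + Sg i) (b a) =
        ∫ τ in (0 : ℝ)..(s a), eval (fun i => (s a - τ) * E a i + Sg i) (b a) := by
      have := intervalIntegral.integral_comp_sub_left (a := (0 : ℝ)) (b := s a)
        (fun τ : ℝ => eval (fun i => τ * E a i + Sg i) (b a)) (s a)
      simp only [sub_self, sub_zero] at this
      exact this.symm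
    have hcont1 : Continuous fun τ : ℝ => eval (fun i => Y i - x a i - τ * E a i) (b a) :=
      (MvPolynomial.continuous_eval (b a)).comp (by fun_prop)
    have hcont2 : Continuous fun τ : ℝ => eval (fun i => (s a - τ) * E a i + Sg i) (b a) :=
      (MvPolynomial.continuous_eval (b a)).comp (by fun_prop)
    have hint : (Pool.BFL.lg (b a) (x a) (E a) (s a) Y -
        ∫ τ in (0 : ℝ)..(s a), eval (fun i => τ * E a i + Sg i) (b a)) =
        ∫ τ in (0 : ℝ)..(s a), (eval (fun i => Y i - x a i - τ * E a i) (b a) -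
          eval (fun i => (s a - τ) * E a i + Sg i) (b a)) := by
      rw [hsub, Pool.BFL.lg, intervalIntegral.integral_sub (hcont1.intervalIntegrable _ _)
        (hcont2.intervalIntegrable _ _)]
    change |Pool.BFL.lg (b a) (x a) (E a) (s a) Y -
      ∫ τ in (0 : ℝ)..(s a), eval (fun i => τ * E a i + Sg i) (b a)| ≤ _
    rw [hint]
    have hbd : ∀ τ ∈ Set.uIoc (0 : ℝ) (s a),
        ‖eval (fun i => Y i - x a i - τ * E a i) (b a) -
          eval (fun i => (s a - τ) * E a i + Sg i) (b a)‖ ≤ L * r * (2 * N * δ₂) := by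
      intro τ hτ
      have hτ1 : |τ| ≤ 1 := by
        have h3 := Set.uIoc_subset_uIcc hτ
        rw [Set.mem_uIcc] at h3
        have h4 := abs_le.1 (hs a)
        rw [abs_le]
        rcases h3 with h3 | h3 <;> constructor <;> linarith [h3.1, h3.2, h4.1, h4.2]
      have hR : ∀ i, |(Y i - x a i - τ * E a i) - ((s a - τ) * E a i + Sg i)| ≤ 2 * N * δ₂ := by
        intro i
        have h5 := rest_bound hN x y E s δ₂ h1 h2 (N - 1 - a.val) a (by have := a.isLt; omega) i
        have e : (Y i - x a i - τ * E a i) - ((s a - τ) * E a i + Sg i) =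
            Y i - x a i - (s a * E a i + Sg i) := by ring
        rw [e]
        refine h5.trans ?_
        refine mul_le_mul_of_nonneg_right ?_ hδ₂
        have h6 : ((N - 1 - a.val : ℕ) : ℝ) ≤ N - 1 := by
          have h7 : (N - 1 - a.val) + 1 ≤ N := by omega
          have h8 : (((N - 1 - a.val : ℕ) : ℝ)) + 1 ≤ N := by exact_mod_cast h7
          linarith
        linarith
      have hp1 : ∀ i, |Y i - x a i - τ * E a i| ≤ 3 * C₀ := by
        intro i
        have h6 : |τ * E a i| ≤ C₀ := by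
          rw [abs_mul]
          calc |τ| * |E a i| ≤ 1 * C₀ := mul_le_mul hτ1 (hE a i) (abs_nonneg _) zero_le_one
            _ = C₀ := one_mul _
        have h7 := hy ⟨N - 1, by omega⟩ i
        rw [← hY] at h7
        have h8 := hx a i
        rw [abs_le] at h6 h7 h8 ⊢
        constructor <;> linarith [h6.1, h6.2, h7.1, h7.2, h8.1, h8.2]
      rw [Real.norm_eq_abs]
      refine hL (b a) r (2 * N * δ₂) (hdeg a) (hCB a) (by positivity) _ _ ?_ ?_ hR
      · intro i
        exact (hp1 i).trans (by linarith)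
      · intro i
        have h9 := hR i
        have h10 := hp1 i
        have h11 : 2 * N * δ₂ ≤ 2 * (N : ℝ) := by
          have : (2 * (N : ℝ)) * δ₂ ≤ 2 * (N : ℝ) * 1 :=
            mul_le_mul_of_nonneg_left hδ₂' (by positivity)
          linarith
        rw [abs_le] at h9 h10 ⊢
        constructor <;> linarith [h9.1, h9.2, h10.1, h10.2]
    have := intervalIntegral.norm_integral_le_of_norm_le_const hbd
    rw [Real.norm_eq_abs, sub_zero] at this
    refine this.trans ?_
    calc L * r * (2 * N * δ₂) * |s a| ≤ L * r * (2 * N * δ₂) * 1 :=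
          mul_le_mul_of_nonneg_left (hs a) (by positivity)
      _ = _ := mul_one _
  -- telescope
  have tel : eval Y (T N) - eval Y (T 0) = ∑ a : Fin N, (eval Y (T (a.val + 1)) -
      eval Y (T a.val)) := by
    have h3 := Fin.sum_univ_eq_sum_range (fun k => eval Y (T (k + 1)) - eval Y (T k)) N
    rw [h3, Finset.sum_range_sub (fun k => eval Y (T k)) N]
  rw [tel, Pool.BFL.Qw, ← Finset.sum_sub_distrib]
  refine (Finset.abs_sum_le_sum_abs _ _).trans ?_
  have hterm : ∀ a ∈ (univ : Finset (Fin N)), |eval Y (T (a.val + 1)) - eval Y (T a.val) -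
      ∫ τ in (0 : ℝ)..(s a),
        eval (fun i => τ * E a i + ∑ c ∈ univ.filter (a < ·), s c * E c i) (b a)| ≤
      δ₁ + L * r * (2 * N * δ₂) := by
    intro a _
    have h3 := leg a
    have h4 := hT a Y (fun i => hy _ i)
    have e : eval Y (T (a.val + 1)) - eval Y (T a.val) -
      (∫ τ in (0 : ℝ)..(s a),
        eval (fun i => τ * E a i + ∑ c ∈ univ.filter (a < ·), s c * E c i) (b a)) =
      (eval Y (T (a.val + 1)) - eval Y (T a.val) - Pool.BFL.lg (b a) (x a) (E a) (s a) Y) +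
      (Pool.BFL.lg (b a) (x a) (E a) (s a) Y - ∫ τ in (0 : ℝ)..(s a),
        eval (fun i => τ * E a i + ∑ c ∈ univ.filter (a < ·), s c * E c i) (b a)) := by ring
    rw [e]
    exact (abs_add_le _ _).trans (add_le_add h4 h3)
  refine (Finset.sum_le_sum hterm).trans ?_
  rw [Finset.sum_const, Finset.card_univ, Fintype.card_fin, nsmul_eq_mul]
  have h5 : 0 ≤ r * δ₂ := mul_nonneg hr0 hδ₂
  have h6 : (N : ℝ) * (δ₁ + L * r * (2 * N * δ₂)) =
      N * δ₁ + N * (L * (2 * N)) * (r * δ₂) := by ring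
  rw [h6]
  have h7 : 0 ≤ N * (L * (2 * N)) * δ₁ := by positivity
  have h8 : 0 ≤ (N : ℝ) * (r * δ₂) := by positivity
  nlinarith [h7, h8, h5, hδ₁]

end Pool.Agent.H1.BFL
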